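import Mathlib
import Pool.Agent.MP_939d63_gt.Defs
import Pool.Agent.MP_939d63_gt.Mg.Loose
import Pool.Agent.MP_939d63_gt.Mg.Trans

set_option autoImplicit false

open Pool.Agent.MP_939d63_gt

/-- A group of orientation-preserving homeomorphisms of the circle that preserves a very full
lamination and is not residually finite. The group is finitely generated, torsion-free, discrete,
acts minimally, and its nontrivial elements have countably many fixed points; the lamination is
loose and the union of its gaps is dense in the disc. -/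
theorem Pool.Agent.Results.MP_939d63_gt.NotRF.result :
    ∃ (G : Subgroup (Circle ≃ₜ Circle)) (L : Set (Circle × Circle)),
      (∀ g ∈ G, OrientationPreserving g) ∧ IsLamination L ∧ VeryFull L ∧
      (∀ g ∈ G, Prod.map g g '' L = L) ∧ ¬ Group.ResiduallyFinite G ∧
      G.FG ∧ (∀ g ∈ G, IsOfFinOrder g → g = 1) ∧
      (∀ g ∈ G, (∀ z, dist (g z) z < 1) → g = 1) ∧
      (∀ z, Dense {w | ∃ g ∈ G, g z = w}) ∧
      (∀ g ∈ G, g ≠ 1 → {z | g z = z}.Countable) ∧
      Loose L ∧ Metric.ball 0 1 ⊆ closure (OffLeaves L) := by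
  refine ⟨GG.map desc, Lam, ?_, isLamination_Lam, veryFull_Lam, ?_, not_rf_map_GG, fg_map_GG,
    ?_, ?_, dense_orbit, ?_, loose_Lam, ball_subset_closure_offLeaves⟩
  · rintro _ ⟨F, -, rfl⟩
    exact orientationPreserving_desc F
  · rintro _ ⟨F, hF, rfl⟩
    exact image_Lam_of_mem_Stab (GG_le_Stab hF)
  · rintro _ ⟨F, hF, rfl⟩ hfin
    rcases alt_of_mem hF with rfl | ⟨b, b', n, H⟩
    · exact map_one _
    · obtain ⟨m, hm, e⟩ := isOfFinOrder_iff_pow_eq_one.1 hfin
      obtain ⟨m, rfl⟩ : ∃ m', m = m' + 1 := ⟨m - 1, by omega⟩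
      exact absurd e (H.nice.1 m)
  · rintro _ ⟨F, hF, rfl⟩ hnear
    rcases alt_of_mem hF with rfl | ⟨b, b', n, H⟩
    · exact map_one _
    · obtain ⟨c, -, H'⟩ := H.hop
      obtain ⟨z, hz⟩ := H'.far
      exact absurd (hnear z) (not_lt.2 hz)
  · rintro _ ⟨F, hF, rfl⟩ hne
    rcases alt_of_mem hF with rfl | ⟨b, b', n, H⟩
    · exact absurd (map_one _) hne
    · exact H.nice.2
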